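import Mathlib

namespace Pool.Agent.Helper63.Down

/-- State of a random access machine: registers and memory, all holding natural numbers. -/
structure State where
  reg : ℕ → ℕ
  mem : ℕ → ℕ

/-- Writing to a register. -/
def State.setReg (s : State) (x v : ℕ) : State := { s with reg := Function.update s.reg x v }

/-- Writing to a memory cell. -/
def State.setMem (s : State) (a v : ℕ) : State := { s with mem := Function.update s.mem a v }

/-- Random access machine programs. -/
inductive Cmd : Type
  /-- `const x c`: register `x` gets the constant `c` -/
  | const (x c : ℕ) : Cmd
  /-- `add x y z`: register `x` gets the sum of registers `y` and `z` -/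
  | add (x y z : ℕ) : Cmd
  /-- `load x y`: register `x` gets the memory cell whose address is in register `y` -/
  | load (x y : ℕ) : Cmd
  /-- `store x y`: the memory cell whose address is in register `x` gets register `y` -/
  | store (x y : ℕ) : Cmd
  /-- sequential composition -/
  | seq (c d : Cmd) : Cmd
  /-- `ifz x c d`: if register `x` is zero then `c` else `d` -/
  | ifz (x : ℕ) (c d : Cmd) : Cmd
  /-- `loop x y c`: for register `x` running from zero to the initial value of register `y` minus
  one, do `c` -/
  | loop (x y : ℕ) (c : Cmd) : Cmd

/-- The first `i` rounds of a loop with counter register `x` and body `f`. -/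
def rounds (f : State → State × ℕ) (x : ℕ) (s : State) : ℕ → State × ℕ
  | 0 => (s, 1)
  | i + 1 =>
    ((f ((rounds f x s i).1.setReg x i)).1,
      (rounds f x s i).2 + 1 + (f ((rounds f x s i).1.setReg x i)).2)

/-- Running a program: the final state and the number of elementary steps. -/
def run : Cmd → State → State × ℕ
  | .const x c, s => (s.setReg x c, 1)
  | .add x y z, s => (s.setReg x (s.reg y + s.reg z), 1)
  | .load x y, s => (s.setReg x (s.mem (s.reg y)), 1)
  | .store x y, s => (s.setMem (s.reg x) (s.reg y), 1)
  | .seq c d, s => ((run d (run c s).1).1, (run c s).2 + (run d (run c s).1).2)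
  | .ifz x c d, s => if s.reg x = 0 then ((run c s).1, (run c s).2 + 1)
      else ((run d s).1, (run d s).2 + 1)
  | .loop x y c, s => rounds (run c) x s (s.reg y)

end Pool.Agent.Helper63.Down
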