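import Mathlib
import Pool.Agent.Helper63.Down.Ram

namespace Pool.Agent.Helper63.Down

@[simp] theorem setReg_reg (s : State) (x v y : ℕ) :
    (s.setReg x v).reg y = if y = x then v else s.reg y := by
  simp [State.setReg, Function.update_apply]

@[simp] theorem setReg_mem (s : State) (x v : ℕ) : (s.setReg x v).mem = s.mem := rfl

@[simp] theorem setMem_reg (s : State) (a v : ℕ) : (s.setMem a v).reg = s.reg := rfl

@[simp] theorem setMem_mem (s : State) (a v b : ℕ) :
    (s.setMem a v).mem b = if b = a then v else s.mem b := by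
  simp [State.setMem, Function.update_apply]

theorem run_const (x c : ℕ) (s : State) : run (.const x c) s = (s.setReg x c, 1) := rfl
theorem run_add (x y z : ℕ) (s : State) :
    run (.add x y z) s = (s.setReg x (s.reg y + s.reg z), 1) := rfl
theorem run_load (x y : ℕ) (s : State) :
    run (.load x y) s = (s.setReg x (s.mem (s.reg y)), 1) := rfl
theorem run_store (x y : ℕ) (s : State) :
    run (.store x y) s = (s.setMem (s.reg x) (s.reg y), 1) := rfl
theorem run_seq (c d : Cmd) (s : State) :
    run (.seq c d) s = ((run d (run c s).1).1, (run c s).2 + (run d (run c s).1).2) := rfl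
theorem run_ifz (x : ℕ) (c d : Cmd) (s : State) :
    run (.ifz x c d) s = if s.reg x = 0 then ((run c s).1, (run c s).2 + 1)
      else ((run d s).1, (run d s).2 + 1) := rfl

/-- Invariant rule for loops. -/
theorem loop_rule (x y : ℕ) (c : Cmd) (s : State) (N : ℕ) (hN : s.reg y = N)
    (I : ℕ → State → Prop) (B : ℕ) (h0 : I 0 s)
    (hstep : ∀ i < N, ∀ s', I i s' →
      I (i + 1) (run c (s'.setReg x i)).1 ∧ (run c (s'.setReg x i)).2 ≤ B) :
    I N (run (.loop x y c) s).1 ∧ (run (.loop x y c) s).2 ≤ 1 + N * (1 + B) := by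
  have key : ∀ i ≤ N, I i (rounds (run c) x s i).1 ∧ (rounds (run c) x s i).2 ≤ 1 + i * (1 + B) := by
    intro i
    induction i with
    | zero => intro _; exact ⟨h0, by simp [rounds]⟩
    | succ i ih =>
      intro hi
      obtain ⟨h1, h2⟩ := ih (by omega)
      obtain ⟨h3, h4⟩ := hstep i (by omega) _ h1
      refine ⟨h3, ?_⟩
      simp only [rounds]
      have : (i + 1) * (1 + B) = i * (1 + B) + (1 + B) := by ring
      omega
  have : run (.loop x y c) s = rounds (run c) x s N := by rw [← hN]; rfl
  rw [this]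
  exact key N le_rfl

/-- First-order formulas about two binary relations on an initial segment of the naturals;
variables are de Bruijn levels. -/
inductive Fm : Type
  | rel (b : Bool) (i j : ℕ) : Fm
  | neg (φ : Fm) : Fm
  | and (φ ψ : Fm) : Fm
  | all (φ : Fm) : Fm

namespace Fm

/-- All variables are bound or below the level. -/
def Scoped : Fm → ℕ → Prop
  | rel _ i j, k => i < k ∧ j < k
  | neg φ, k => φ.Scoped k
  | and φ ψ, k => φ.Scoped k ∧ ψ.Scoped k
  | all φ, k => φ.Scoped (k + 1)

/-- Truth of a formula. -/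
def Sat (n : ℕ) (R : Bool → ℕ → ℕ → Prop) : Fm → ℕ → (ℕ → ℕ) → Prop
  | rel b i j, _, v => R b (v i) (v j)
  | neg φ, k, v => ¬ φ.Sat n R k v
  | and φ ψ, k, v => φ.Sat n R k v ∧ ψ.Sat n R k v
  | all φ, k, v => ∀ x < n, φ.Sat n R (k + 1) (Function.update v k x)

end Fm

/-- Address computation. -/
def addr (b : Bool) (i j k : ℕ) : Cmd :=
  .seq (.const (6 + 2 * k) 0) (.seq (.loop (7 + 2 * k) (4 + 2 * i) (.add (6 + 2 * k) (6 + 2 * k) 0))
    (.seq (.add (6 + 2 * k) (6 + 2 * k) (4 + 2 * j)) (.add (6 + 2 * k) (6 + 2 * k) (bif b then 2 else 3))))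

theorem addr_spec (b : Bool) (i j k : ℕ) (hi : i < k) (hj : j < k) (s : State) :
    (run (addr b i j k) s).1.mem = s.mem ∧
    (∀ m, m < 6 + 2 * k → (run (addr b i j k) s).1.reg m = s.reg m) ∧
    (run (addr b i j k) s).1.reg (6 + 2 * k) =
      s.reg (4 + 2 * i) * s.reg 0 + s.reg (4 + 2 * j) + s.reg (bif b then 2 else 3) ∧
    (run (addr b i j k) s).2 ≤ 4 + s.reg (4 + 2 * i) * 2 := by
  have hloop := loop_rule (7 + 2 * k) (4 + 2 * i) (.add (6 + 2 * k) (6 + 2 * k) 0)
    (s.setReg (6 + 2 * k) 0) (s.reg (4 + 2 * i)) (by simp; omega)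
    (fun t s' => s'.mem = s.mem ∧ (∀ m, m < 6 + 2 * k → s'.reg m = s.reg m) ∧
      s'.reg (6 + 2 * k) = t * s.reg 0) 1
    (by
      refine ⟨rfl, ?_, by simp⟩
      intro m hm
      simp
      omega)
    (by
      rintro t ht s' ⟨h1, h2, h3⟩
      refine ⟨⟨by simp [run_add, h1], ?_, ?_⟩, by simp [run_add]⟩
      · intro m hm
        rw [run_add]
        simp only [setReg_reg]
        rw [if_neg (by omega), if_neg (by omega)]
        exact h2 m hm
      · rw [run_add]
        simp only [setReg_reg, if_true]
        rw [if_neg (by omega), if_neg (by omega), h3, h2 0 (by omega)]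
        ring)
  obtain ⟨⟨h1, h2, h3⟩, h4⟩ := hloop
  set s1 := (run (.loop (7 + 2 * k) (4 + 2 * i) (.add (6 + 2 * k) (6 + 2 * k) 0))
    (s.setReg (6 + 2 * k) 0)) with hs1
  have hb : (bif b then 2 else 3) < 6 + 2 * k := by cases b <;> simp <;> omega
  have e : run (addr b i j k) s =
      (((s1.1.setReg (6 + 2 * k) (s1.1.reg (6 + 2 * k) + s1.1.reg (4 + 2 * j))).setReg (6 + 2 * k)
        ((s1.1.setReg (6 + 2 * k) (s1.1.reg (6 + 2 * k) + s1.1.reg (4 + 2 * j))).reg (6 + 2 * k) +
        (s1.1.setReg (6 + 2 * k) (s1.1.reg (6 + 2 * k) + s1.1.reg (4 + 2 * j))).reg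
          (bif b then 2 else 3))), 1 + (s1.2 + (1 + 1))) := rfl
  rw [e]
  refine ⟨h1, ?_, ?_, ?_⟩
  · intro m hm
    simp only [setReg_reg]
    rw [if_neg (by omega), if_neg (by omega)]
    exact h2 m hm
  · simp only [setReg_reg, if_true]
    rw [if_neg (by omega), h3, h2 _ (by omega), h2 _ hb]
  · simp only
    omega

/-- Compilation of formulas; the truth value ends up in register `5 + 2 * k`. -/
def compile : Fm → ℕ → Cmd
  | .rel b i j, k => .seq (addr b i j k) (.load (5 + 2 * k) (6 + 2 * k))
  | .neg φ, k => .seq (compile φ k) (.ifz (5 + 2 * k) (.const (5 + 2 * k) 1) (.const (5 + 2 * k) 0))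
  | .and φ ψ, k => .seq (compile φ k) (.ifz (5 + 2 * k) (.const (5 + 2 * k) 0) (compile ψ k))
  | .all φ, k => .seq (.const (5 + 2 * k) 1) (.loop (4 + 2 * k) 0
      (.seq (compile φ (k + 1)) (.ifz (7 + 2 * k) (.const (5 + 2 * k) 0) (.const (7 + 2 * k) 0))))

/-- Cost bound of the compiled formula. -/
noncomputable def cost : Fm → Polynomial ℕ
  | .rel _ _ _ => 5 + 2 * Polynomial.X
  | .neg φ => cost φ + 2
  | .and φ ψ => cost φ + cost ψ + 2
  | .all φ => 2 + Polynomial.X * (cost φ + 3)

/-- The memory holds the tables of the two relations. -/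
def Holds (n : ℕ) (R : Bool → ℕ → ℕ → Prop) (mem : ℕ → ℕ) : Prop :=
  ∀ b i j, i < n → j < n →
    (mem (i * n + j + (bif b then n * n else 0)) = 1 ∧ R b i j) ∨
    (mem (i * n + j + (bif b then n * n else 0)) = 0 ∧ ¬ R b i j)

/-- Registers 0, 2, 3 hold `n`, `n * n`, `0`. -/
def Glob (n : ℕ) (s : State) : Prop := s.reg 0 = n ∧ s.reg 2 = n * n ∧ s.reg 3 = 0

theorem compile_spec (n : ℕ) (R : Bool → ℕ → ℕ → Prop) (φ : Fm) :
    ∀ (k : ℕ) (s : State) (v : ℕ → ℕ), φ.Scoped k → Glob n s → Holds n R s.mem →
      (∀ i < k, s.reg (4 + 2 * i) = v i ∧ v i < n) →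
      (run (compile φ k) s).1.mem = s.mem ∧
      (∀ m, m < 4 + 2 * k → (run (compile φ k) s).1.reg m = s.reg m) ∧
      (((run (compile φ k) s).1.reg (5 + 2 * k) = 1 ∧ φ.Sat n R k v) ∨
        ((run (compile φ k) s).1.reg (5 + 2 * k) = 0 ∧ ¬ φ.Sat n R k v)) ∧
      (run (compile φ k) s).2 ≤ (cost φ).eval n := by
  induction φ with
  | rel b i j =>
    rintro k s v ⟨hi, hj⟩ ⟨g0, g2, g3⟩ hR hv
    obtain ⟨a1, a2, a3, a4⟩ := addr_spec b i j k hi hj s
    rw [compile, run_seq, run_load]
    refine ⟨by simp [a1], ?_, ?_, ?_⟩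
    · intro m hm
      simp only [setReg_reg]
      rw [if_neg (by omega), a2 m (by omega)]
    · simp only [setReg_reg, if_true]
      rw [a1, a3, (hv i hi).1, (hv j hj).1, g0]
      have hb : s.reg (bif b then 2 else 3) = bif b then n * n else 0 := by
        cases b <;> simp [g2, g3]
      rw [hb]
      exact hR b (v i) (v j) (hv i hi).2 (hv j hj).2
    · simp only [cost]
      have := (hv i hi)
      simp
      omega
  | neg φ ih =>
    intro k s v hsc hG hR hv
    obtain ⟨h1, h2, h3, h4⟩ := ih k s v hsc hG hR hv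
    rw [compile, run_seq, run_ifz]
    simp only [cost, Fm.Sat]
    rcases h3 with ⟨h3, h5⟩ | ⟨h3, h5⟩
    · rw [if_neg (by omega)]
      refine ⟨by simp [run_const, h1], ?_, ?_, ?_⟩
      · intro m hm
        simp only [run_const, setReg_reg]
        rw [if_neg (by omega)]
        exact h2 m hm
      · right
        exact ⟨by simp [run_const], not_not.2 h5⟩
      · simp [run_const]
        omega
    · rw [if_pos h3]
      refine ⟨by simp [run_const, h1], ?_, ?_, ?_⟩
      · intro m hm
        simp only [run_const, setReg_reg]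
        rw [if_neg (by omega)]
        exact h2 m hm
      · left
        exact ⟨by simp [run_const], h5⟩
      · simp [run_const]
        omega
  | and φ ψ ih1 ih2 =>
    intro k s v hsc hG hR hv
    obtain ⟨h1, h2, h3, h4⟩ := ih1 k s v hsc.1 hG hR hv
    rw [compile, run_seq, run_ifz]
    simp only [cost, Fm.Sat]
    rcases h3 with ⟨h3, h5⟩ | ⟨h3, h5⟩
    · rw [if_neg (by omega)]
      obtain ⟨g1, g2, g3, g4⟩ := ih2 k (run (compile φ k) s).1 v hsc.2
        ⟨by rw [h2 0 (by omega)]; exact hG.1, by rw [h2 2 (by omega)]; exact hG.2.1,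
          by rw [h2 3 (by omega)]; exact hG.2.2⟩ (by rw [h1]; exact hR)
        (fun i hi => by rw [h2 _ (by omega)]; exact hv i hi)
      refine ⟨by simp only [g1, h1], ?_, ?_, ?_⟩
      · intro m hm
        simp only
        rw [g2 m hm, h2 m hm]
      · rcases g3 with ⟨g3, g5⟩ | ⟨g3, g5⟩
        · left; exact ⟨g3, h5, g5⟩
        · right; exact ⟨g3, fun h => g5 h.2⟩
      · simp only [Polynomial.eval_add, Polynomial.eval_ofNat]
        omega
    · rw [if_pos h3]
      refine ⟨by simp [run_const, h1], ?_, ?_, ?_⟩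
      · intro m hm
        simp only [run_const, setReg_reg]
        rw [if_neg (by omega)]
        exact h2 m hm
      · right
        exact ⟨by simp [run_const], fun h => h5 h.1⟩
      · simp only [Polynomial.eval_add, Polynomial.eval_ofNat, run_const]
        omega
  | all φ ih =>
    intro k s v hsc hG hR hv
    rw [compile, run_seq, run_const]
    have hloop := loop_rule (4 + 2 * k) 0 (.seq (compile φ (k + 1)) (.ifz (7 + 2 * k) (.const (5 + 2 * k) 0) (.const (7 + 2 * k) 0)))
      (s.setReg (5 + 2 * k) 1) n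
      (by simp only [setReg_reg]; rw [if_neg (by omega)]; exact hG.1)
      (fun t s' => s'.mem = s.mem ∧ (∀ m, m < 4 + 2 * k → s'.reg m = s.reg m) ∧
        ((s'.reg (5 + 2 * k) = 1 ∧ ∀ x < t, φ.Sat n R (k + 1) (Function.update v k x)) ∨
          (s'.reg (5 + 2 * k) = 0 ∧ ¬ ∀ x < t, φ.Sat n R (k + 1) (Function.update v k x))))
      ((cost φ).eval n + 2)
      (by
        refine ⟨rfl, ?_, Or.inl ⟨by simp, by simp⟩⟩
        intro m hm
        simp only [setReg_reg]
        rw [if_neg (by omega)])
      (by
        rintro t ht s' ⟨h1, h2, h3⟩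
        obtain ⟨g1, g2, g3, g4⟩ := ih (k + 1) (s'.setReg (4 + 2 * k) t) (Function.update v k t) hsc
          (by
            refine ⟨?_, ?_, ?_⟩
            · simp only [setReg_reg]; rw [if_neg (by omega), h2 0 (by omega)]; exact hG.1
            · simp only [setReg_reg]; rw [if_neg (by omega), h2 2 (by omega)]; exact hG.2.1
            · simp only [setReg_reg]; rw [if_neg (by omega), h2 3 (by omega)]; exact hG.2.2)
          (by simp only [setReg_mem]; rw [h1]; exact hR)
          (by
            intro i hi
            simp only [setReg_reg]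
            by_cases hik : i = k
            · subst hik
              simp [ht]
            · rw [if_neg (by omega), h2 _ (by omega), Function.update_of_ne hik]
              exact hv i (by omega))
        rw [run_seq, run_ifz]
        simp only [run_const]
        have e5 : (run (compile φ (k+1)) (s'.setReg (4 + 2 * k) t)).1.reg (5 + 2 * k) = s'.reg (5 + 2 * k) := by
          rw [g2 _ (by omega)]
          simp only [setReg_reg]
          rw [if_neg (by omega)]
        have e7 : 5 + 2 * (k + 1) = 7 + 2 * k := by ring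
        rw [e7] at g3
        rcases g3 with ⟨g3, g5⟩ | ⟨g3, g5⟩
        · rw [if_neg (by omega)]
          refine ⟨⟨by simp [g1, h1], ?_, ?_⟩, ?_⟩
          · intro m hm
            simp only [setReg_reg]
            rw [if_neg (by omega), g2 m (by omega)]
            simp only [setReg_reg]
            rw [if_neg (by omega)]
            exact h2 m hm
          · simp only [setReg_reg]
            rw [if_neg (by omega), e5]
            rcases h3 with ⟨h3, h6⟩ | ⟨h3, h6⟩
            · left
              refine ⟨h3, fun x hx => ?_⟩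
              rcases Nat.lt_succ_iff_lt_or_eq.1 hx with h | h
              · exact h6 x h
              · rw [h]; exact g5
            · right
              refine ⟨h3, fun h => h6 fun x hx => h x (by omega)⟩
          · simp only; omega
        · rw [if_pos g3]
          refine ⟨⟨by simp [g1, h1], ?_, ?_⟩, ?_⟩
          · intro m hm
            simp only [setReg_reg]
            rw [if_neg (by omega), g2 m (by omega)]
            simp only [setReg_reg]
            rw [if_neg (by omega)]
            exact h2 m hm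
          · right
            refine ⟨by simp, fun h => g5 (h t (by omega))⟩
          · simp only; omega)
    obtain ⟨⟨h1, h2, h3⟩, h4⟩ := hloop
    refine ⟨h1, h2, h3, ?_⟩
    simp only [cost, Polynomial.eval_add, Polynomial.eval_mul, Polynomial.eval_ofNat, Polynomial.eval_X]
    have : n * (1 + (Polynomial.eval n (cost φ) + 2)) = n * (Polynomial.eval n (cost φ) + 3) := by ring
    omega

end Pool.Agent.Helper63.Down
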