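import Mathlib
import Pool.Agent.Helper63.Down.Ram

namespace Pool.Agent.Helper63.Down

open Classical in
/-- The input state: register 0 holds `n`, memory cell `i * n + j` holds the truth value of
`r i j`, everything else is zero. -/
noncomputable def input (n : ℕ) (r : Fin n → Fin n → Bool) : State where
  reg := fun k => if k = 0 then n else 0
  mem := fun a => if ∃ i j : Fin n, a = (i : ℕ) * n + (j : ℕ) ∧ r i j = true then 1 else 0

/-- A relation on `P` is the order of a down-poset: it is isomorphic to the order on a set `C`
coming from an action of a semilattice with identity `S`. -/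
def IsDownPoset {P : Type} (le : P → P → Prop) : Prop :=
  ∃ (S C : Type) (_ : CommMonoid S) (act : C → S → C) (e : P ≃ C),
    (∀ s : S, s * s = s) ∧
    (∀ c s t, act c (s * t) = act (act c s) t) ∧
    (∀ c, act c 1 = c) ∧
    ∀ a b : P, le a b ↔ ∃ s : S, act (e b) s = e a

end Pool.Agent.Helper63.Down
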