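import Mathlib
import Pool.Agent.Helper63.Down.Defs

namespace Pool.Agent.Helper63.Down

section
variable {P : Type} [PartialOrder P]

/-- Down-functions. -/
structure IsDownFun (f : P → P) : Prop where
  le : ∀ c, f c ≤ c
  mono : ∀ c d, c ≤ d → f c ≤ f d
  fix : ∀ c d, c ≤ f d → f c = c

theorem exists_downFun (h : IsDownPoset (fun a b : P => a ≤ b)) (c d : P) (hcd : c ≤ d) :
    ∃ f : P → P, IsDownFun f ∧ f d = c := by
  obtain ⟨S, C, _, act, e, hidem, hmul, hone, hle⟩ := h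
  obtain ⟨s, hs⟩ := (hle c d).1 hcd
  have hle' : ∀ a b : P, a ≤ b ↔ ∃ s : S, act (e b) s = e a := hle
  refine ⟨fun x => e.symm (act (e x) s), ⟨?_, ?_, ?_⟩, ?_⟩
  · intro x
    rw [hle']
    exact ⟨s, by simp⟩
  · intro x y hxy
    obtain ⟨t, ht⟩ := (hle' x y).1 hxy
    rw [hle']
    refine ⟨t, ?_⟩
    simp only [Equiv.apply_symm_apply]
    rw [← hmul, ← ht, ← hmul, mul_comm]
  · intro x y hxy
    obtain ⟨t, ht⟩ := (hle' _ _).1 hxy
    simp only [Equiv.apply_symm_apply] at ht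
    rw [Equiv.symm_apply_eq, ← ht, ← hmul, ← hmul, mul_comm t s, ← mul_assoc, hidem, hmul]
  · simp [hs]

theorem isDownPoset_of_downFun
    (h : ∀ c d : P, c ≤ d → ∃ f : P → P, IsDownFun f ∧ f d = c) :
    IsDownPoset (fun a b : P => a ≤ b) := by
  have hcomm : ∀ f g : P → P, IsDownFun f → IsDownFun g → ∀ x, f (g x) ≤ g (f x) := by
    intro f g hf hg x
    have h1 : g (f (g x)) = f (g x) := hg.fix _ x (hf.le _)
    have h2 : f (f (g x)) = f (g x) := hf.fix _ (g x) le_rfl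
    have h3 : f (g x) ≤ f x := by
      rw [← h2]
      exact hf.mono _ _ ((hf.le _).trans (hg.le _))
    rw [← h1]
    exact hg.mono _ _ h3
  let S := {f : P → P // IsDownFun f}
  let inst : CommMonoid S := {
    mul := fun f g => ⟨fun x => g.1 (f.1 x), ⟨fun c => (g.2.le _).trans (f.2.le _),
      fun c d hcd => g.2.mono _ _ (f.2.mono _ _ hcd), fun c d hcd => by
        have h1 : g.1 c = c := g.2.fix _ _ hcd
        have h2 : f.1 c = c := f.2.fix _ _ (hcd.trans (g.2.le _))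
        rw [h2, h1]⟩⟩
    one := ⟨id, ⟨fun _ => le_rfl, fun _ _ h => h, fun _ _ _ => rfl⟩⟩
    mul_assoc := fun _ _ _ => rfl
    one_mul := fun _ => rfl
    mul_one := fun _ => rfl
    mul_comm := fun f g => Subtype.ext (funext fun x =>
      le_antisymm (hcomm _ _ g.2 f.2 x) (hcomm _ _ f.2 g.2 x)) }
  refine ⟨S, P, inst, fun c f => f.1 c, Equiv.refl P, ?_, ?_, ?_, ?_⟩
  · intro f
    apply Subtype.ext
    funext x
    exact f.2.fix _ _ le_rfl
  · intro c s t; rfl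
  · intro c; rfl
  · intro a b
    constructor
    · intro hab
      obtain ⟨f, hf, hfb⟩ := h a b hab
      exact ⟨⟨f, hf⟩, hfb⟩
    · rintro ⟨f, hf⟩
      simp only [Equiv.refl_apply] at hf
      rw [← hf]
      exact f.2.le _

/-- The closure condition for row `c`. -/
def RowPhi (c : P) (A : Set P) (z : P) : Prop :=
  z ≤ c ∨ (∃ x, ∀ u, u ≤ x → z ≤ u) ∨
    ∃ x y₁ y₂, y₁ ∈ A ∧ y₂ ∈ A ∧ y₁ ≤ x ∧ y₂ ≤ x ∧ ∀ u, u ≤ x → y₁ ≤ u → y₂ ≤ u → z ≤ u

/-- The closure of row `c`. -/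
def Cl (c : P) : Set P := {z | ∀ A : Set P, (∀ w, RowPhi c A w → w ∈ A) → z ∈ A}

theorem RowPhi.mono {c : P} {A B : Set P} (hAB : A ⊆ B) {z : P} (h : RowPhi c A z) :
    RowPhi c B z := by
  rcases h with h | h | ⟨x, y₁, y₂, h1, h2, h3⟩
  · exact Or.inl h
  · exact Or.inr (Or.inl h)
  · exact Or.inr (Or.inr ⟨x, y₁, y₂, hAB h1, hAB h2, h3⟩)

theorem Cl_closed (c : P) (z : P) (h : RowPhi c (Cl c) z) : z ∈ Cl c := by
  intro A hA
  exact hA z (RowPhi.mono (A := Cl c) (B := A) (fun w hw => hw A hA) h)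

/-- Condition (A): any two elements with a common upper bound have a meet. -/
def CondA (P : Type) [PartialOrder P] : Prop :=
  ∀ x y₁ y₂ : P, y₁ ≤ x → y₂ ≤ x → ∃ m, m ≤ y₁ ∧ m ≤ y₂ ∧ ∀ z, z ≤ y₁ → z ≤ y₂ → z ≤ m

theorem condA_of (h : IsDownPoset (fun a b : P => a ≤ b)) : CondA P := by
  intro x y₁ y₂ h1 h2
  obtain ⟨f, hf, hfx⟩ := exists_downFun h y₁ x h1
  refine ⟨f y₂, ?_, hf.le _, ?_⟩
  · rw [← hfx]; exact hf.mono _ _ h2
  · intro z hz1 hz2
    have : f z = z := hf.fix z x (by rw [hfx]; exact hz1)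
    rw [← this]
    exact hf.mono _ _ hz2

theorem condB_of (h : IsDownPoset (fun a b : P => a ≤ b)) (c d z : P) (hcd : c ≤ d)
    (hz : z ∈ Cl c) (hzd : z ≤ d) : z ≤ c := by
  obtain ⟨f, hf, hfd⟩ := exists_downFun h c d hcd
  have : z ∈ {a | f a = a} := by
    apply hz
    rintro w (hw | ⟨x, hx⟩ | ⟨x, y₁, y₂, h1, h2, h3, h4, h5⟩)
    · exact hf.fix w d (by rw [hfd]; exact hw)
    · exact hf.fix w x (hx _ (hf.le x))
    · apply hf.fix w x
      apply h5 _ (hf.le x)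
      · have h1' : f y₁ = y₁ := h1
        rw [← h1']; exact hf.mono _ _ h3
      · have h2' : f y₂ = y₂ := h2
        rw [← h2']; exact hf.mono _ _ h4
  have hz' : f z = z := this
  rw [← hz', ← hfd]
  exact hf.mono _ _ hzd

theorem exists_meet (hA : CondA P) (x : P) (U : Finset P) (hU : ∀ u ∈ U, u ≤ x) :
    ∃ m, m ≤ x ∧ (∀ u ∈ U, m ≤ u) ∧ ∀ z, z ≤ x → (∀ u ∈ U, z ≤ u) → z ≤ m := by
  classical
  induction U using Finset.induction_on with
  | empty => exact ⟨x, le_rfl, by simp, fun z hz _ => hz⟩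
  | insert a U ha ih =>
    obtain ⟨m, h1, h2, h3⟩ := ih (fun u hu => hU u (Finset.mem_insert_of_mem hu))
    obtain ⟨m', g1, g2, g3⟩ := hA x m a h1 (hU a (Finset.mem_insert_self _ _))
    refine ⟨m', g1.trans h1, ?_, ?_⟩
    · intro u hu
      rcases Finset.mem_insert.1 hu with rfl | hu
      · exact g2
      · exact g1.trans (h2 u hu)
    · intro z hz hzu
      exact g3 z (h3 z hz fun u hu => hzu u (Finset.mem_insert_of_mem hu))
        (hzu a (Finset.mem_insert_self _ _))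

theorem isDownPoset_of [Finite P] (hA : CondA P)
    (hB : ∀ c d z : P, c ≤ d → z ∈ Cl c → z ≤ d → z ≤ c) :
    IsDownPoset (fun a b : P => a ≤ b) := by
  classical
  have := Fintype.ofFinite P
  apply isDownPoset_of_downFun
  intro c d hcd
  have hmax : ∀ x, ∃ m, m ∈ Cl c ∧ m ≤ x ∧ ∀ z, z ∈ Cl c → z ≤ x → z ≤ m := by
    intro x
    obtain ⟨b, hb1, hb2, -⟩ := exists_meet hA x (Finset.univ.filter fun u => u ≤ x) (by simp)
    have hbD : b ∈ Cl c := Cl_closed c b (Or.inr (Or.inl ⟨x, fun u hu => hb2 u (by simp [hu])⟩))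
    obtain ⟨m, hm⟩ := (Set.toFinite {z | z ∈ Cl c ∧ z ≤ x}).exists_maximal ⟨b, hbD, hb1⟩
    refine ⟨m, hm.1.1, hm.1.2, fun z hz hzx => ?_⟩
    obtain ⟨j, hj1, hj2, hj3⟩ := exists_meet hA x
      (Finset.univ.filter fun u => u ≤ x ∧ m ≤ u ∧ z ≤ u)
      (fun u hu => (Finset.mem_filter.1 hu).2.1)
    have hjD : j ∈ Cl c := Cl_closed c j (Or.inr (Or.inr ⟨x, m, z, hm.1.1, hz, hm.1.2, hzx,
      fun u h1 h2 h3 => hj2 u (by simp [h1, h2, h3])⟩))
    have h1 : m ≤ j := hj3 m hm.1.2 (by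
      intro u hu
      simp only [Finset.mem_filter, Finset.mem_univ, true_and] at hu
      exact hu.2.1)
    have h2 : z ≤ j := hj3 z hzx (by
      intro u hu
      simp only [Finset.mem_filter, Finset.mem_univ, true_and] at hu
      exact hu.2.2)
    exact h2.trans (hm.2 ⟨hjD, hj1⟩ h1)
  choose f hf1 hf2 hf3 using hmax
  have hdown : ∀ y ∈ Cl c, ∀ z, z ≤ y → z ∈ Cl c := by
    intro y hy z hz
    exact Cl_closed c z (Or.inr (Or.inr ⟨y, y, y, hy, hy, le_rfl, le_rfl,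
      fun u _ h2 _ => hz.trans h2⟩))
  have hcc : c ∈ Cl c := Cl_closed c c (Or.inl le_rfl)
  refine ⟨f, ⟨hf2, ?_, ?_⟩, ?_⟩
  · intro a b hab
    exact hf3 b _ (hf1 a) ((hf2 a).trans hab)
  · intro a b hab
    exact le_antisymm (hf2 a) (hf3 a a (hdown _ (hf1 b) a hab) le_rfl)
  · exact le_antisymm (hB c d _ hcd (hf1 d) (hf2 d)) (hf3 d c hcc hcd)

theorem isDownPoset_iff [Finite P] : IsDownPoset (fun a b : P => a ≤ b) ↔
    CondA P ∧ ∀ c d z : P, c ≤ d → z ∈ Cl c → z ≤ d → z ≤ c :=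
  ⟨fun h => ⟨condA_of h, condB_of h⟩, fun h => isDownPoset_of h.1 h.2⟩

end

end Pool.Agent.Helper63.Down
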