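import Mathlib
import Pool.Agent.Helper63.Down.Compile
import Pool.Agent.Helper63.Down.Order

namespace Pool.Agent.Helper63.Down

namespace Fm

def or (φ ψ : Fm) : Fm := .neg (.and (.neg φ) (.neg ψ))
def imp (φ ψ : Fm) : Fm := .neg (.and φ (.neg ψ))
def ex (φ : Fm) : Fm := .neg (.all (.neg φ))

theorem sat_or (n : ℕ) (R : Bool → ℕ → ℕ → Prop) (φ ψ : Fm) (k : ℕ) (v : ℕ → ℕ) :
    (or φ ψ).Sat n R k v ↔ φ.Sat n R k v ∨ ψ.Sat n R k v := by
  simp only [or, Sat]; tauto

theorem sat_imp (n : ℕ) (R : Bool → ℕ → ℕ → Prop) (φ ψ : Fm) (k : ℕ) (v : ℕ → ℕ) :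
    (imp φ ψ).Sat n R k v ↔ (φ.Sat n R k v → ψ.Sat n R k v) := by
  simp only [imp, Sat]; tauto

theorem sat_ex (n : ℕ) (R : Bool → ℕ → ℕ → Prop) (φ : Fm) (k : ℕ) (v : ℕ → ℕ) :
    (ex φ).Sat n R k v ↔ ∃ x < n, φ.Sat n R (k + 1) (Function.update v k x) := by
  simp only [ex, Sat]; push Not; rfl

end Fm

open Fm in
/-- The closure rule. -/
def phi : Fm :=
  Fm.or (rel false 1 0) (Fm.or (ex (all (imp (rel false 3 2) (rel false 1 3))))
    (ex (ex (ex (and (rel true 0 3) (and (rel true 0 4) (and (rel false 3 2)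
      (and (rel false 4 2) (all (imp (rel false 5 2) (imp (rel false 3 5)
        (imp (rel false 4 5) (rel false 1 5)))))))))))))

open Fm in
/-- The final test. -/
def psi : Fm :=
  and
    (all (all (all (imp (rel false 1 0) (imp (rel false 2 0) (ex (and (rel false 3 1)
      (and (rel false 3 2) (all (imp (rel false 4 1) (imp (rel false 4 2) (rel false 4 3))))))))))))
    (all (all (all (imp (rel false 0 1) (imp (rel true 0 2) (imp (rel false 2 1) (rel false 2 0)))))))

/-- The two relations. -/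
def Rel (le D : ℕ → ℕ → Prop) : Bool → ℕ → ℕ → Prop := fun b => bif b then D else le

/-- The closure rule, unfolded. -/
def PHI (n : ℕ) (le D : ℕ → ℕ → Prop) (c z : ℕ) : Prop :=
  le z c ∨ (∃ x < n, ∀ u < n, le u x → le z u) ∨
    ∃ x < n, ∃ y₁ < n, ∃ y₂ < n, D c y₁ ∧ D c y₂ ∧ le y₁ x ∧ le y₂ x ∧
      ∀ u < n, le u x → le y₁ u → le y₂ u → le z u

theorem sat_phi (n : ℕ) (le D : ℕ → ℕ → Prop) (v : ℕ → ℕ) :
    phi.Sat n (Rel le D) 2 v ↔ PHI n le D (v 0) (v 1) := by
  simp only [phi, PHI, Fm.sat_or, Fm.sat_ex, Fm.sat_imp, Fm.Sat, Rel, cond_true, cond_false]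
  simp

theorem sat_psi (n : ℕ) (le D : ℕ → ℕ → Prop) (v : ℕ → ℕ) :
    psi.Sat n (Rel le D) 0 v ↔
      (∀ x < n, ∀ y₁ < n, ∀ y₂ < n, le y₁ x → le y₂ x → ∃ m < n, le m y₁ ∧ le m y₂ ∧
        ∀ z < n, le z y₁ → le z y₂ → le z m) ∧
      (∀ c < n, ∀ d < n, ∀ z < n, le c d → D c z → le z d → le z c) := by
  simp only [psi, Fm.sat_ex, Fm.sat_imp, Fm.Sat, Rel, cond_true, cond_false]
  simp

/-- The body of the sweep. -/
def body : Cmd :=
  .seq (compile phi 2) (.ifz 9 (.const 9 0)
    (.seq (addr true 0 1 2) (.seq (.const 11 1) (.store 10 11))))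

theorem phi_scoped : phi.Scoped 2 := by
  simp [phi, Fm.or, Fm.ex, Fm.imp, Fm.Scoped]

theorem psi_scoped : psi.Scoped 0 := by
  simp [psi, Fm.ex, Fm.imp, Fm.Scoped]

/-- Cost of the body. -/
noncomputable def bodyCost : Polynomial ℕ := cost phi + 2 * Polynomial.X + 8

theorem pair_inj {n i j a b : ℕ} (hj : j < n) (hb : b < n) (h : i * n + j = a * n + b) :
    i = a ∧ j = b := by
  have h1 : i = a := by
    have e1 : (i * n + j) / n = i := by
      rw [mul_comm, Nat.mul_add_div (by omega), Nat.div_eq_of_lt hj, add_zero]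
    have e2 : (a * n + b) / n = a := by
      rw [mul_comm, Nat.mul_add_div (by omega), Nat.div_eq_of_lt hb, add_zero]
    rw [← e1, ← e2, h]
  subst h1
  exact ⟨rfl, by omega⟩

theorem pair_lt {n i j : ℕ} (hi : i < n) (hj : j < n) : i * n + j < n * n := by
  have : (i + 1) * n ≤ n * n := Nat.mul_le_mul_right n hi
  nlinarith

theorem body_spec (n : ℕ) (le D : ℕ → ℕ → Prop) (s : State) (c z : ℕ) (hG : Glob n s)
    (hH : Holds n (Rel le D) s.mem) (h4 : s.reg 4 = c) (h6 : s.reg 6 = z) (hc : c < n)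
    (hz : z < n) :
    (∀ m, m < 8 → (run body s).1.reg m = s.reg m) ∧
    Holds n (Rel le (fun a b => D a b ∨ (a = c ∧ b = z ∧ PHI n le D c z))) (run body s).1.mem ∧
    (run body s).2 ≤ bodyCost.eval n := by
  obtain ⟨h1, h2, h3, h5⟩ := compile_spec n (Rel le D) phi 2 s (fun i => if i = 0 then c else z)
    phi_scoped hG hH (by
      intro i hi
      interval_cases i
      · simp [h4, hc]
      · simp [h6, hz])
  rw [sat_phi] at h3
  simp only [if_true, one_ne_zero, if_false] at h3
  have e9 : 5 + 2 * 2 = 9 := rfl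
  rw [e9] at h3
  have hb : Polynomial.eval n bodyCost = Polynomial.eval n (cost phi) + 2 * n + 8 := by
    simp [bodyCost]
  rw [hb, body, run_seq, run_ifz]
  rcases h3 with ⟨h3, hphi⟩ | ⟨h3, hphi⟩
  · rw [if_neg (by rw [h3]; exact one_ne_zero)]
    set s1 := (run (compile phi 2) s).1 with hs1
    obtain ⟨a1, a2, a3, a4⟩ := addr_spec true 0 1 2 (by norm_num) (by norm_num) s1
    set s2 := (run (addr true 0 1 2) s1).1 with hs2
    have e : run (.seq (addr true 0 1 2) (.seq (.const 11 1) (.store 10 11))) s1 =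
      (((s2.setReg 11 1).setMem ((s2.setReg 11 1).reg 10) ((s2.setReg 11 1).reg 11)),
        (run (addr true 0 1 2) s1).2 + (1 + 1)) := rfl
    rw [e]
    have r4 : s1.reg 4 = c := by rw [h2 4 (by norm_num), h4]
    have r6 : s1.reg 6 = z := by rw [h2 6 (by norm_num), h6]
    have r0 : s1.reg 0 = n := by rw [h2 0 (by norm_num), hG.1]
    have r2 : s1.reg 2 = n * n := by rw [h2 2 (by norm_num), hG.2.1]
    have r10 : s2.reg 10 = c * n + z + n * n := by
      have : s2.reg 10 = s1.reg 4 * s1.reg 0 + s1.reg 6 + s1.reg 2 := a3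
      rw [this, r4, r6, r0, r2]
    refine ⟨?_, ?_, ?_⟩
    · intro m hm
      simp only [setMem_reg, setReg_reg]
      rw [if_neg (by omega), a2 m (by omega), h2 m (by omega)]
    · have e10 : (s2.setReg 11 1).reg 10 = c * n + z + n * n := by
        rw [setReg_reg, if_neg (by norm_num), r10]
      have e11 : (s2.setReg 11 1).reg 11 = 1 := by simp
      intro b i j hi hj
      simp only [setMem_mem, setReg_mem, e10, e11, a1, h1]
      cases b with
      | false =>
        have := pair_lt hi hj
        simp only [cond_false, add_zero, Rel]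
        rw [if_neg (by omega)]
        exact hH false i j hi hj
      | true =>
        simp only [cond_true, Rel]
        by_cases hij : i = c ∧ j = z
        · obtain ⟨rfl, rfl⟩ := hij
          rw [if_pos rfl]
          left
          exact ⟨rfl, Or.inr ⟨rfl, rfl, hphi⟩⟩
        · rw [if_neg]
          · rcases hH true i j hi hj with ⟨g1, g2⟩ | ⟨g1, g2⟩
            · left; exact ⟨g1, Or.inl g2⟩
            · right
              refine ⟨g1, ?_⟩
              rintro (g | ⟨g3, g4, -⟩)
              · exact g2 g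
              · exact hij ⟨g3, g4⟩
          · intro h
            apply hij
            exact pair_inj hj hz (by omega)
    · simp only
      have : s1.reg (4 + 2 * 0) = c := r4
      rw [this] at a4
      omega
  · rw [if_pos h3]
    refine ⟨?_, ?_, ?_⟩
    · intro m hm
      simp only [run_const, setReg_reg]
      rw [if_neg (by omega)]
      exact h2 m (by omega)
    · intro b i j hi hj
      simp only [run_const, setReg_mem, h1]
      cases b with
      | false => exact hH false i j hi hj
      | true =>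
        rcases hH true i j hi hj with ⟨g1, g2⟩ | ⟨g1, g2⟩
        · left; exact ⟨g1, Or.inl g2⟩
        · right
          refine ⟨g1, ?_⟩
          rintro (g | ⟨-, -, g⟩)
          · exact g2 g
          · exact hphi g
    · simp only [run_const]
      omega

/-- The sweep over all pairs. -/
def sweep : Cmd := .loop 4 0 (.loop 6 0 body)

/-- Cost of a row. -/
noncomputable def rowCost : Polynomial ℕ := 1 + Polynomial.X * (1 + bodyCost)

/-- Cost of a sweep. -/
noncomputable def sweepCost : Polynomial ℕ := 1 + Polynomial.X * (1 + rowCost)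

/-- Intermediate states of a sweep. -/
def Good (n : ℕ) (le D0 L : ℕ → ℕ → Prop) (P : ℕ → ℕ → Prop) (mem : ℕ → ℕ) : Prop :=
  ∃ D, Holds n (Rel le D) mem ∧ (∀ a b, D0 a b → D a b) ∧ (∀ a b, D a b → L a b) ∧
    ∀ a b, a < n → b < n → P a b → PHI n le D0 a b → D a b

theorem PHI_mono {n : ℕ} {le D D' : ℕ → ℕ → Prop} (h : ∀ a b, D a b → D' a b) {c z : ℕ}
    (hp : PHI n le D c z) : PHI n le D' c z := by
  rcases hp with h1 | h1 | ⟨x, hx, y₁, hy₁, y₂, hy₂, g1, g2, g3⟩
  · exact Or.inl h1
  · exact Or.inr (Or.inl h1)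
  · exact Or.inr (Or.inr ⟨x, hx, y₁, hy₁, y₂, hy₂, h _ _ g1, h _ _ g2, g3⟩)

theorem sweep_spec (n : ℕ) (le D0 L : ℕ → ℕ → Prop) (s : State) (hG : Glob n s)
    (hH : Holds n (Rel le D0) s.mem) (hDL : ∀ a b, D0 a b → L a b)
    (hL : ∀ c z, c < n → z < n → PHI n le L c z → L c z) :
    (∀ m, m < 4 → (run sweep s).1.reg m = s.reg m) ∧
    Good n le D0 L (fun _ _ => True) (run sweep s).1.mem ∧
    (run sweep s).2 ≤ sweepCost.eval n := by
  have hout := loop_rule 4 0 (.loop 6 0 body) s n hG.1
    (fun t s' => (∀ m, m < 4 → s'.reg m = s.reg m) ∧ Good n le D0 L (fun a _ => a < t) s'.mem)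
    (rowCost.eval n)
    ⟨fun _ _ => rfl, D0, hH, fun _ _ h => h, hDL, fun _ _ _ _ h => absurd h (by omega)⟩
    (by
      rintro c hc s' ⟨h1, h2⟩
      have hin := loop_rule 6 0 body (s'.setReg 4 c) n
        (by simp only [setReg_reg]; rw [if_neg (by norm_num), h1 0 (by norm_num)]; exact hG.1)
        (fun t s'' => (∀ m, m < 4 → s''.reg m = s.reg m) ∧ s''.reg 4 = c ∧
          Good n le D0 L (fun a b => a < c ∨ (a = c ∧ b < t)) s''.mem)
        (bodyCost.eval n)
        (by
          refine ⟨?_, by simp, ?_⟩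
          · intro m hm
            simp only [setReg_reg]
            rw [if_neg (by omega), h1 m hm]
          · obtain ⟨D, g1, g2, g3, g4⟩ := h2
            refine ⟨D, g1, g2, g3, ?_⟩
            rintro a b ha hb (h | ⟨-, h⟩) hp
            · exact g4 a b ha hb h hp
            · exact absurd h (by omega))
        (by
          rintro z hz s'' ⟨g1, g2, D, g3, g4, g5, g6⟩
          obtain ⟨b1, b2, b3⟩ := body_spec n le D (s''.setReg 6 z) c z
            (by
              refine ⟨?_, ?_, ?_⟩
              · simp only [setReg_reg]; rw [if_neg (by norm_num), g1 0 (by norm_num)]; exact hG.1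
              · simp only [setReg_reg]; rw [if_neg (by norm_num), g1 2 (by norm_num)]; exact hG.2.1
              · simp only [setReg_reg]; rw [if_neg (by norm_num), g1 3 (by norm_num)]; exact hG.2.2)
            g3 (by simp only [setReg_reg]; rw [if_neg (by norm_num)]; exact g2) (by simp) hc hz
          refine ⟨⟨?_, ?_, ?_⟩, b3⟩
          · intro m hm
            rw [b1 m (by omega)]
            simp only [setReg_reg]
            rw [if_neg (by omega)]
            exact g1 m hm
          · rw [b1 4 (by norm_num)]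
            simp only [setReg_reg]
            rw [if_neg (by norm_num)]
            exact g2
          · refine ⟨_, b2, fun a b h => Or.inl (g4 a b h), ?_, ?_⟩
            · rintro a b (h | ⟨rfl, rfl, h⟩)
              · exact g5 a b h
              · exact hL _ _ hc hz (PHI_mono g5 h)
            · rintro a b ha hb (h | ⟨rfl, h⟩) hp
              · exact Or.inl (g6 a b ha hb (Or.inl h) hp)
              · rcases Nat.lt_succ_iff_lt_or_eq.1 h with h | rfl
                · exact Or.inl (g6 a b ha hb (Or.inr ⟨rfl, h⟩) hp)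
                · exact Or.inr ⟨rfl, rfl, PHI_mono g4 hp⟩)
      obtain ⟨⟨g1, g2, D, g3, g4, g5, g6⟩, g7⟩ := hin
      refine ⟨⟨g1, D, g3, g4, g5, ?_⟩, ?_⟩
      · intro a b ha hb h hp
        apply g6 a b ha hb _ hp
        rcases Nat.lt_succ_iff_lt_or_eq.1 h with h | rfl
        · exact Or.inl h
        · exact Or.inr ⟨rfl, hb⟩
      · have : Polynomial.eval n rowCost = 1 + n * (1 + Polynomial.eval n bodyCost) := by
          simp [rowCost]
        rw [this]
        exact g7)
  obtain ⟨⟨h1, D, h2, h3, h4, h5⟩, h6⟩ := hout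
  refine ⟨h1, ⟨D, h2, h3, h4, fun a b ha hb _ hp => h5 a b ha hb ha hp⟩, ?_⟩
  have : Polynomial.eval n sweepCost = 1 + n * (1 + Polynomial.eval n rowCost) := by
    simp [sweepCost]
  rw [this]
  exact h6

end Pool.Agent.Helper63.Down
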