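import Mathlib
import Pool.Agent.Helper63.Down.Program
import Pool.Agent.Helper63.Down.Defs

namespace Pool.Agent.Helper63.Down

/-- The whole program. -/
def prog : Cmd :=
  .seq (.const 2 0) (.seq (.loop 4 0 (.add 2 2 0)) (.seq (.loop 1 0 sweep)
    (.seq (compile psi 0) (.add 1 5 3))))

/-- Its running time. -/
noncomputable def time : Polynomial ℕ :=
  1 + (1 + Polynomial.X * (1 + 1)) + (1 + Polynomial.X * (1 + sweepCost)) + cost psi + 1

section
variable {P : Type} [PartialOrder P] {n : ℕ} (e : Fin n ≃ P)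

/-- The order transported to natural numbers. -/
def leN (a b : ℕ) : Prop := ∃ (ha : a < n) (hb : b < n), e ⟨a, ha⟩ ≤ e ⟨b, hb⟩

/-- The closure transported to natural numbers. -/
def LN (a b : ℕ) : Prop := ∃ (ha : a < n) (hb : b < n), e ⟨b, hb⟩ ∈ Cl (e ⟨a, ha⟩)

omit [PartialOrder P] in
theorem ex_iff (p : ℕ → Prop) : (∃ x < n, p x) ↔ ∃ w : P, p (e.symm w) :=
  ⟨fun ⟨x, hx, h⟩ => ⟨e ⟨x, hx⟩, by simpa using h⟩, fun ⟨w, h⟩ => ⟨e.symm w, (e.symm w).2, h⟩⟩

omit [PartialOrder P] in
theorem all_iff (p : ℕ → Prop) : (∀ x < n, p x) ↔ ∀ w : P, p (e.symm w) :=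
  ⟨fun h w => h _ (e.symm w).2, fun h x hx => by simpa using h (e ⟨x, hx⟩)⟩

theorem leN_symm (a b : P) : leN e (e.symm a) (e.symm b) ↔ a ≤ b := by
  constructor
  · rintro ⟨ha, hb, h⟩
    simpa using h
  · intro h
    exact ⟨(e.symm a).2, (e.symm b).2, by simpa using h⟩

theorem LN_symm (a b : P) : LN e (e.symm a) (e.symm b) ↔ b ∈ Cl a := by
  constructor
  · rintro ⟨ha, hb, h⟩
    simpa using h
  · intro h
    exact ⟨(e.symm a).2, (e.symm b).2, by simpa using h⟩

theorem PHI_symm (D : ℕ → ℕ → Prop) (c z : P) :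
    PHI n (leN e) D (e.symm c) (e.symm z) ↔ RowPhi c {w | D (e.symm c) (e.symm w)} z := by
  simp only [PHI, ex_iff e, all_iff e, leN_symm, RowPhi, Set.mem_ofPred_eq]

theorem LN_closed (c z : ℕ) (hc : c < n) (hz : z < n) (h : PHI n (leN e) (LN e) c z) :
    LN e c z := by
  have hc' : c = (e.symm (e ⟨c, hc⟩) : ℕ) := by simp
  have hz' : z = (e.symm (e ⟨z, hz⟩) : ℕ) := by simp
  rw [hc', hz'] at h ⊢
  rw [PHI_symm] at h
  rw [LN_symm]
  apply Cl_closed
  have : {w | LN e (e.symm (e ⟨c, hc⟩)) (e.symm w)} = Cl (e ⟨c, hc⟩) := by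
    ext w
    exact LN_symm e _ _
  rw [this] at h
  exact h

theorem LN_least (D : ℕ → ℕ → Prop) (c : ℕ) (hc : c < n)
    (hD : ∀ z < n, PHI n (leN e) D c z → D c z) (z : ℕ) (hz : z < n) (h : LN e c z) : D c z := by
  have hc' : c = (e.symm (e ⟨c, hc⟩) : ℕ) := by simp
  have hz' : z = (e.symm (e ⟨z, hz⟩) : ℕ) := by simp
  rw [hc', hz'] at h ⊢
  rw [LN_symm] at h
  apply h {w | D (e.symm (e ⟨c, hc⟩)) (e.symm w)}
  intro w hw
  rw [← PHI_symm] at hw
  rw [← hc'] at hw ⊢
  exact hD _ (e.symm w).2 hw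

theorem sweeps_spec (s : State) (hG : Glob n s) (D0 : ℕ → ℕ → Prop)
    (hH : Holds n (Rel (leN e) D0) s.mem) (hDL : ∀ a b, D0 a b → LN e a b) :
    Glob n (run (.loop 1 0 sweep) s).1 ∧
    Holds n (Rel (leN e) (LN e)) (run (.loop 1 0 sweep) s).1.mem ∧
    (run (.loop 1 0 sweep) s).2 ≤ 1 + n * (1 + sweepCost.eval n) := by
  classical
  have hloop := loop_rule 1 0 sweep s n hG.1
    (fun t s' => Glob n s' ∧ ∃ D : ℕ → ℕ → Prop, Holds n (Rel (leN e) D) s'.mem ∧
      (∀ a b, D a b → LN e a b) ∧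
      ∀ c < n, (∀ z < n, LN e c z → D c z) ∨ t ≤ ((Finset.range n).filter fun z => D c z).card)
    (sweepCost.eval n)
    ⟨hG, D0, hH, hDL, fun c _ => Or.inr (Nat.zero_le _)⟩
    (by
      rintro t ht s' ⟨g, D, h1, h2, h3⟩
      have hG' : Glob n (s'.setReg 1 t) := by
        refine ⟨?_, ?_, ?_⟩
        · simp only [setReg_reg]; rw [if_neg (by norm_num)]; exact g.1
        · simp only [setReg_reg]; rw [if_neg (by norm_num)]; exact g.2.1
        · simp only [setReg_reg]; rw [if_neg (by norm_num)]; exact g.2.2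
      obtain ⟨b1, ⟨D', b2, b3, b4, b5⟩, b6⟩ := sweep_spec n (leN e) D (LN e) (s'.setReg 1 t) hG' h1 h2
        (fun c z hc hz => LN_closed e c z hc hz)
      refine ⟨⟨⟨?_, ?_, ?_⟩, D', b2, b4, ?_⟩, b6⟩
      · rw [b1 0 (by norm_num)]; exact hG'.1
      · rw [b1 2 (by norm_num)]; exact hG'.2.1
      · rw [b1 3 (by norm_num)]; exact hG'.2.2
      · intro c hc
        rcases h3 c hc with h | h
        · left
          intro z hz hL
          exact b3 c z (h z hz hL)
        · by_cases hcl : ∀ z < n, PHI n (leN e) D c z → D c z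
          · left
            intro z hz hL
            exact b3 c z (LN_least e D c hc hcl z hz hL)
          · right
            push Not at hcl
            obtain ⟨w, hw, hw1, hw2⟩ := hcl
            have hlt : ((Finset.range n).filter fun z => D c z) ⊂
                ((Finset.range n).filter fun z => D' c z) := by
              rw [Finset.ssubset_iff_of_subset]
              · refine ⟨w, ?_, ?_⟩
                · simp only [Finset.mem_filter, Finset.mem_range]
                  exact ⟨hw, b5 c w hc hw trivial hw1⟩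
                · simp only [Finset.mem_filter, Finset.mem_range, not_and]
                  exact fun _ => hw2
              · intro z hz
                simp only [Finset.mem_filter, Finset.mem_range] at hz ⊢
                exact ⟨hz.1, b3 c z hz.2⟩
            have := Finset.card_lt_card hlt
            omega)
  obtain ⟨⟨h1, D, h2, h3, h4⟩, h5⟩ := hloop
  refine ⟨h1, ?_, h5⟩
  have hfull : ∀ c < n, ∀ z < n, LN e c z → D c z := by
    intro c hc
    rcases h4 c hc with h | h
    · exact h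
    · intro z hz _
      have hsub : ((Finset.range n).filter fun z => D c z) = Finset.range n := by
        apply Finset.eq_of_subset_of_card_le (Finset.filter_subset _ _)
        rw [Finset.card_range]
        exact h
      have : z ∈ ((Finset.range n).filter fun z => D c z) := by
        rw [hsub]; exact Finset.mem_range.2 hz
      exact (Finset.mem_filter.1 this).2
  intro b i j hi hj
  have := h2 b i j hi hj
  cases b with
  | false => exact this
  | true =>
    simp only [Rel, cond_true] at this ⊢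
    have hiff : D i j ↔ LN e i j := ⟨h3 i j, hfull i hi j hj⟩
    rw [← hiff]
    exact this

theorem prog_spec [Finite P] (s : State) (h0 : s.reg 0 = n) (h3 : s.reg 3 = 0)
    (hH : ∀ i j, i < n → j < n → (s.mem (i * n + j) = 1 ∧ leN e i j) ∨
      (s.mem (i * n + j) = 0 ∧ ¬ leN e i j))
    (hmem : ∀ a, n * n ≤ a → s.mem a = 0) :
    (((run prog s).1.reg 1 = 1 ∧ IsDownPoset (fun a b : P => a ≤ b)) ∨
      ((run prog s).1.reg 1 = 0 ∧ ¬ IsDownPoset (fun a b : P => a ≤ b))) ∧
    (run prog s).2 ≤ time.eval n := by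
  -- computing the square
  have hsq := loop_rule 4 0 (.add 2 2 0) (s.setReg 2 0) n
    (by simp only [setReg_reg]; rw [if_neg (by norm_num)]; exact h0)
    (fun t s' => s'.mem = s.mem ∧ s'.reg 0 = n ∧ s'.reg 2 = t * n ∧ s'.reg 3 = 0) 1
    (by
      refine ⟨rfl, ?_, by simp, ?_⟩
      · simp only [setReg_reg]; rw [if_neg (by norm_num)]; exact h0
      · simp only [setReg_reg]; rw [if_neg (by norm_num)]; exact h3)
    (by
      rintro t ht s' ⟨g1, g2, g3, g4⟩
      refine ⟨⟨?_, ?_, ?_, ?_⟩, by simp [run_add]⟩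
      · simp [run_add, g1]
      · simp [run_add, g2]
      · simp [run_add, g2, g3]; ring
      · simp [run_add, g4])
  obtain ⟨⟨a1, a2, a3, a4⟩, a5⟩ := hsq
  set s1 := (run (.loop 4 0 (.add 2 2 0)) (s.setReg 2 0)).1 with hs1
  have hG1 : Glob n s1 := ⟨a2, a3, a4⟩
  have hH1 : Holds n (Rel (leN e) (fun _ _ => False)) s1.mem := by
    intro b i j hi hj
    rw [a1]
    cases b with
    | false => simpa [Rel] using hH i j hi hj
    | true =>
      right
      refine ⟨?_, by simp [Rel]⟩
      apply hmem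
      simp
  obtain ⟨b1, b2, b3⟩ := sweeps_spec e s1 hG1 (fun _ _ => False) hH1 (fun _ _ h => h.elim)
  set s2 := (run (.loop 1 0 sweep) s1).1 with hs2
  obtain ⟨c1, c2, c3, c4⟩ := compile_spec n (Rel (leN e) (LN e)) psi 0 s2 (fun _ => 0)
    psi_scoped b1 b2 (fun i hi => absurd hi (by omega))
  have e1 : run prog s = ((run (compile psi 0) s2).1.setReg 1
      ((run (compile psi 0) s2).1.reg 5 + (run (compile psi 0) s2).1.reg 3),
      1 + ((run (.loop 4 0 (.add 2 2 0)) (s.setReg 2 0)).2 + ((run (.loop 1 0 sweep) s1).2 +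
        ((run (compile psi 0) s2).2 + 1)))) := rfl
  have hiff : psi.Sat n (Rel (leN e) (LN e)) 0 (fun _ => 0) ↔
      IsDownPoset (fun a b : P => a ≤ b) := by
    rw [sat_psi, isDownPoset_iff]
    simp only [ex_iff e, all_iff e, leN_symm, LN_symm, CondA]
  rw [hiff] at c3
  rw [e1]
  refine ⟨?_, ?_⟩
  · simp only [setReg_reg, if_true]
    rw [c2 3 (by norm_num), b1.2.2]
    simpa using c3
  · have ht : time.eval n = 1 + (1 + n * (1 + 1)) + (1 + n * (1 + sweepCost.eval n)) +
        (cost psi).eval n + 1 := by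
      simp [time]
    rw [ht]
    simp only
    omega

end

/-- The program decides down-posets in polynomial time. -/
theorem main : ∃ (prog : Cmd) (p : Polynomial ℕ), ∀ (n : ℕ) (r : Fin n → Fin n → Bool),
    IsPartialOrder (Fin n) (fun i j => r i j = true) →
    (run prog (input n r)).2 ≤ p.eval n ∧
    (((run prog (input n r)).1.reg 1 = 1 ∧ IsDownPoset (fun i j => r i j = true)) ∨
      ((run prog (input n r)).1.reg 1 = 0 ∧ ¬ IsDownPoset (fun i j => r i j = true))) := by
  refine ⟨prog, time, fun n r hr => ?_⟩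
  let inst : PartialOrder (Fin n) := {
    le := fun i j => r i j = true
    lt := fun i j => r i j = true ∧ ¬ r j i = true
    lt_iff_le_not_ge := fun _ _ => Iff.rfl
    le_refl := fun i => hr.refl i
    le_trans := fun i j k h1 h2 => hr.trans i j k h1 h2
    le_antisymm := fun i j h1 h2 => hr.antisymm i j h1 h2 }
  have hle : ∀ i j : ℕ, @leN (Fin n) inst n (Equiv.refl _) i j ↔
      ∃ (hi : i < n) (hj : j < n), r ⟨i, hi⟩ ⟨j, hj⟩ = true := fun i j => Iff.rfl
  have hex : ∀ i j : ℕ, i < n → j < n → ((∃ i' j' : Fin n, i * n + j = (i' : ℕ) * n + (j' : ℕ) ∧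
      r i' j' = true) ↔ ∃ (hi : i < n) (hj : j < n), r ⟨i, hi⟩ ⟨j, hj⟩ = true) := by
    intro i j hi hj
    constructor
    · rintro ⟨i', j', h1, h2⟩
      obtain ⟨rfl, rfl⟩ := pair_inj hj j'.2 h1
      exact ⟨hi, hj, h2⟩
    · rintro ⟨hi, hj, h⟩
      exact ⟨⟨i, hi⟩, ⟨j, hj⟩, rfl, h⟩
  have := @prog_spec (Fin n) inst n (Equiv.refl _) _ (input n r) rfl rfl
    (by
      intro i j hi hj
      rw [hle, ← hex i j hi hj]
      by_cases h : ∃ i' j' : Fin n, i * n + j = (i' : ℕ) * n + (j' : ℕ) ∧ r i' j' = true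
      · left; exact ⟨if_pos h, h⟩
      · right; exact ⟨if_neg h, h⟩)
    (by
      intro a ha
      apply if_neg
      rintro ⟨i, j, h1, -⟩
      have := pair_lt i.2 j.2
      omega)
  exact ⟨this.2, this.1⟩

end Pool.Agent.Helper63.Down
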